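import Pool.Agent.Lib_helper60.K8c.Cub
import Pool.Agent.Lib_helper60.FAM.To8x

/-!
# The curve with a point of order eight and `d = 3/2`: the interface
-/

set_option autoImplicit false
set_option linter.unusedSectionVars false
set_option linter.unusedVariables false

open scoped TensorProduct WithZero

namespace Pool.Agent.K8c

open Pool.Agent.MK4 WeierstrassCurve.Affine Pool.Agent.KC72 Pool.Agent.FK4
open Pool.Agent.TN (Wt Gen)
open Pool.Agent.UEG (P0)

variable {k : Type*} [Field k] [DecidableEq k] [CharZero k] {F : Type*} [Field F] [Algebra k F]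
  {x y : F}

lemma ue8_bb : UE8.bb (3/2 : k) = 1 := by unfold UE8.bb; norm_num

lemma ue8_cc : UE8.cc (3/2 : k) = 2/3 := by unfold UE8.cc; norm_num

lemma gen (h : Generic (Wt (UE8.bb (3/2 : k)) (UE8.cc (3/2))) x y) : Gen (1 : k) (2/3) x y := by
  have := UE4.of_UEG h.toU
  rwa [ue8_bb, ue8_cc] at this

/-- the functions supported on the multiples of `P` -/
lemma supp (hb : UE8.bb (3/2 : k) ≠ 0) (hO : addOrderOf (P0 (UE8.cc (3/2 : k)) hb) = 8)
    (h : Generic (Wt (UE8.bb (3/2 : k)) (UE8.cc (3/2))) x y) (f : F) :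
    Supp (AddSubgroup.zmultiples (P0 (UE8.cc (3/2 : k)) hb)) x y f ↔ U8 k x y f := by
  have hu : UE8.uF (3/2 : k) x y = uF x y := by
    unfold UE8.uF uF
    have e1 : algebraMap k F ((3/2) * ((3/2) - 1)) = 3/4 := by
      rw [show ((3/2 : k) * ((3/2) - 1)) = 3/4 by norm_num]
      exact mape
    have e2 : algebraMap k F ((3/2) - 1) = 1/2 := by
      rw [show ((3/2 : k) - 1) = 1/2 by norm_num]
      exact maps
    rw [ue8_bb, ue8_cc, mapb, mapc, e1, e2]
  rw [supp_iff, UE8.isUn8 (by norm_num) (by norm_num) (by norm_num) hb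
    (by rw [← hO]; exact addOrderOf_nsmul_eq_zero _) h.toU f, hu]
  rfl

/-- the generators are supported on the multiples of `P` -/
lemma G8_supp (hb : UE8.bb (3/2 : k) ≠ 0) (hO : addOrderOf (P0 (UE8.cc (3/2 : k)) hb) = 8)
    (h : Generic (Wt (UE8.bb (3/2 : k)) (UE8.cc (3/2))) x y) (i : Fin 9) :
    Supp (AddSubgroup.zmultiples (P0 (UE8.cc (3/2 : k)) hb)) x y (G8 x y i) := by
  have : CharZero F := charZero_of_injective_algebraMap (algebraMap k F).injective
  rw [supp hb hO h]
  have hu : ∀ j : Fin 7, U8 k x y (uF x y j) := by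
    intro j
    refine ⟨1, Pi.single j 1, one_ne_zero, ?_⟩
    unfold M8
    rw [map_one, one_mul, Finset.prod_eq_single j]
    · rw [Pi.single_eq_same, zpow_one]
    · intro i _ hi
      rw [Pi.single_eq_of_ne hi, zpow_zero]
    · intro hj; exact absurd (Finset.mem_univ _) hj
  have hc : ∀ c : k, c ≠ 0 → U8 k x y (algebraMap k F c) := by
    intro c hc
    refine ⟨c, 0, hc, ?_⟩
    simp [M8]
  fin_cases i
  · exact hu 0
  · exact hu 1
  · exact hu 2
  · exact hu 3
  · exact hu 4
  · exact hu 5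
  · exact hu 6
  · have := hc 2 two_ne_zero
    rwa [map_ofNat] at this
  · have := hc 3 three_ne_zero
    rwa [map_ofNat] at this

omit [DecidableEq k] in
/-- the classes of degree at most four are solutions -/
lemma solsA (h : Gen (1 : k) (2/3) x y) : Sols (List.ofFn (G8 x y)) clsA :=
  fun p hp => sols8 h p (List.mem_of_mem_take hp)

/-- **the unit equation**: the solutions supported on the multiples of `P` -/
theorem hU (hb : UE8.bb (3/2 : k) ≠ 0) (hO : addOrderOf (P0 (UE8.cc (3/2 : k)) hb) = 8)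
    (h : Generic (Wt (UE8.bb (3/2 : k)) (UE8.cc (3/2))) x y) (f : F)
    (h1 : Supp (AddSubgroup.zmultiples (P0 (UE8.cc (3/2 : k)) hb)) x y f)
    (h2 : Supp (AddSubgroup.zmultiples (P0 (UE8.cc (3/2 : k)) hb)) x y (1 - f)) :
    (∃ c : k, f = algebraMap k F c) ∨
      ∃ p ∈ cls, TN.Orb (KC72.ev (List.ofFn (G8 x y)) p.1) f := by
  rw [supp hb hO h] at h1 h2
  exact unit8' (gen h) h1 h2

/-- **the symbols** of the solutions supported on the multiples of `P` -/
theorem hUS (hb : UE8.bb (3/2 : k) ≠ 0) (hO : addOrderOf (P0 (UE8.cc (3/2 : k)) hb) = 8)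
    (h : Generic (Wt (UE8.bb (3/2 : k)) (UE8.cc (3/2))) x y) (f : F)
    (h1 : Supp (AddSubgroup.zmultiples (P0 (UE8.cc (3/2 : k)) hb)) x y f)
    (h2 : Supp (AddSubgroup.zmultiples (P0 (UE8.cc (3/2 : k)) hb)) x y (1 - f)) :
    sy f ∈ SC k F ⊔ Submodule.span ℚ
      {a : B2 F | ∃ p ∈ clsA, a = sy (KC72.ev (List.ofFn (G8 x y)) p.1)} := by
  rw [supp hb hO h] at h1 h2
  exact hUA (gen h) h1 h2

end Pool.Agent.K8c
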