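import Pool.Agent.Lib_helper60.K8c.S
import Pool.Agent.Lib_helper72.KC.P2

/-!
# The curve with `b = 1`, `c = 2/3`: the classes of degree six
-/

set_option autoImplicit false
set_option linter.unusedSectionVars false
set_option linter.unusedSimpArgs false
set_option linter.unusedVariables false

namespace Pool.Agent.K8c

open Polynomial WeierstrassCurve.Affine WithZero TN K8 KC72 MK4
open Pool.Agent.K7 (orb6_orb)

/-- the Moebius functions of `x` -/
def pq : List Mo := [
  (false, [1, 0, -1, 0, 0, 0, 0, 0, -1]),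
  (false, [0, 0, 0, 1, 0, 0, 0, 2, 0]),
  (true, [1, -1, 0, 0, 0, 0, 0, -1, 0]),
  (false, [0, -1, 0, 1, 0, 0, 0, 2, 0]),
  (false, [1, 0, 0, 0, 0, 0, 0, 0, 0]),
  (false, [0, 0, -1, 1, 0, 0, 0, 2, -1]),
  (false, [0, -1, 0, 1, 0, 0, 0, 2, -1]),
  (false, [-1, 0, 0, 1, 0, 0, 0, 0, 0])]

/-- the function of degree three of `x` -/
def R0 : Mo := (false, [2, 0, -2, 1, 0, 0, 0, 2, -2])

/-- positions of the translates of `pq` -/
def qT : List (List (ℕ × ℕ)) := [
  [(42, 2), (38, 0), (42, 4), (34, 0), (51, 1), (34, 5), (37, 5), (39, 5)],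
  [(53, 2), (1, 3), (53, 4), (48, 0), (5, 2), (48, 5), (50, 5), (2, 1)],
  [(17, 5), (13, 3), (17, 0), (55, 0), (11, 3), (55, 5), (16, 1), (9, 4)],
  [(29, 0), (24, 2), (29, 5), (40, 3), (21, 3), (40, 1), (28, 4), (22, 4)]]

/-- positions of the classes of degree six -/
def cubT : List (ℕ × ℕ) := [(3, 1), (2, 5), (1, 2), (0, 1)]

/-- the classes of degree two and four -/
def clsA : List (Mo × Mo) := cls.take 58

lemma clsA_len : clsA.length = 58 := by decide +kernel

lemma chk1 : (List.range 4).all (fun i => eqM (shM T8 (cubT.getD i default).1 R0)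
    (oo cls (58 + i, (cubT.getD i default).2)) && Nat.blt (cubT.getD i default).1 4) = true := by
  decide +kernel

lemma chk2 : (List.range 4).all (fun j => (List.range 8).all (fun q =>
    Nat.blt ((qT.getD j []).getD q default).1 58 &&
    eqM (shM T8 j (pq.getD q default)) (oo cls ((qT.getD j []).getD q default)))) = true := by
  decide +kernel

section

variable {k : Type*} [Field k] [CharZero k] {F : Type*} [Field F] [Algebra k F] {x y : F}

lemma u_nc (h : Gen (1 : k) (2/3) x y) (c : k) : x ≠ algebraMap k F c := by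
  intro hc
  have hx : x ≠ 0 := uF_ne h 0
  have h1 : M8 x y ![1, 0, 0, 0, 0, 0, 0] = algebraMap k F c := by
    rw [← hc]
    simp [M8, Fin.prod_univ_succ, uF]
  have h2 := M8_const h h1
  have h3 := congrFun h2 0
  simp at h3

lemma mk0 : algebraMap k F (0) = 0 := by simp [map_div₀, map_ofNat, map_neg]

lemma mk1 : algebraMap k F (3/4) = 3/4 := by simp [map_div₀, map_ofNat, map_neg]

lemma mk2 : algebraMap k F (2/3) = 2/3 := by simp [map_div₀, map_ofNat, map_neg]

lemma mk3 : algebraMap k F (1) = 1 := by simp [map_div₀, map_ofNat, map_neg]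

lemma mk4 : algebraMap k F (4/9) = 4/9 := by simp [map_div₀, map_ofNat, map_neg]


lemma sq0 (h : Gen (1 : k) (2/3) x y) : SS (pt x) (pt (algebraMap k F (0))) (pt (algebraMap k F (2/3))) (pt (algebraMap k F (1))) =
    sy (KC72.ev (List.ofFn (G8 x y)) (pq.getD 0 default)) := by
  have := cz (k := k) (F := F)
  have n1 : x ≠ 0 := uF_ne h 0
  have n2 : x - 1 ≠ 0 := uF_ne h 1
  have n3 : x - (2/3) ≠ 0 := uF_ne h 2
  have n4 : x - (3/4) ≠ 0 := uF_ne h 3
  show _ = sy (KC72.ev (List.ofFn (G8 x y)) (false, [1, 0, -1, 0, 0, 0, 0, 0, -1]))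
  unfold SS
  congr 1
  rw [ev_G8 (k := k)]
  unfold KC72.cr
  simp only [br_pt, br_pto, br_opt, mk0, mk1, mk2, mk3, mk4]
  simp [M8, Fin.prod_univ_succ, uF, zpow_ofNat, map_ofNat]
  all_goals field_simp
  all_goals try ring


lemma sq1 (h : Gen (1 : k) (2/3) x y) : SS (pt x) (pt (algebraMap k F (3/4))) (po F) (pt (algebraMap k F (1))) =
    sy (KC72.ev (List.ofFn (G8 x y)) (pq.getD 1 default)) := by
  have := cz (k := k) (F := F)
  have n1 : x ≠ 0 := uF_ne h 0
  have n2 : x - 1 ≠ 0 := uF_ne h 1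
  have n3 : x - (2/3) ≠ 0 := uF_ne h 2
  have n4 : x - (3/4) ≠ 0 := uF_ne h 3
  show _ = sy (KC72.ev (List.ofFn (G8 x y)) (false, [0, 0, 0, 1, 0, 0, 0, 2, 0]))
  unfold SS
  congr 1
  rw [ev_G8 (k := k)]
  unfold KC72.cr
  simp only [br_pt, br_pto, br_opt, mk0, mk1, mk2, mk3, mk4]
  simp [M8, Fin.prod_univ_succ, uF, zpow_ofNat, map_ofNat]
  all_goals field_simp
  all_goals try ring


lemma sq2 (h : Gen (1 : k) (2/3) x y) : SS (pt x) (pt (algebraMap k F (0))) (pt (algebraMap k F (1))) (pt (algebraMap k F (2/3))) =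
    sy (KC72.ev (List.ofFn (G8 x y)) (pq.getD 2 default)) := by
  have := cz (k := k) (F := F)
  have n1 : x ≠ 0 := uF_ne h 0
  have n2 : x - 1 ≠ 0 := uF_ne h 1
  have n3 : x - (2/3) ≠ 0 := uF_ne h 2
  have n4 : x - (3/4) ≠ 0 := uF_ne h 3
  show _ = sy (KC72.ev (List.ofFn (G8 x y)) (true, [1, -1, 0, 0, 0, 0, 0, -1, 0]))
  unfold SS
  congr 1
  rw [ev_G8 (k := k)]
  unfold KC72.cr
  simp only [br_pt, br_pto, br_opt, mk0, mk1, mk2, mk3, mk4]
  simp [M8, Fin.prod_univ_succ, uF, zpow_ofNat, map_ofNat]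
  all_goals field_simp
  all_goals try ring


lemma sq3 (h : Gen (1 : k) (2/3) x y) : SS (pt x) (pt (algebraMap k F (3/4))) (pt (algebraMap k F (1))) (pt (algebraMap k F (2/3))) =
    sy (KC72.ev (List.ofFn (G8 x y)) (pq.getD 3 default)) := by
  have := cz (k := k) (F := F)
  have n1 : x ≠ 0 := uF_ne h 0
  have n2 : x - 1 ≠ 0 := uF_ne h 1
  have n3 : x - (2/3) ≠ 0 := uF_ne h 2
  have n4 : x - (3/4) ≠ 0 := uF_ne h 3
  show _ = sy (KC72.ev (List.ofFn (G8 x y)) (false, [0, -1, 0, 1, 0, 0, 0, 2, 0]))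
  unfold SS
  congr 1
  rw [ev_G8 (k := k)]
  unfold KC72.cr
  simp only [br_pt, br_pto, br_opt, mk0, mk1, mk2, mk3, mk4]
  simp [M8, Fin.prod_univ_succ, uF, zpow_ofNat, map_ofNat]
  all_goals field_simp
  all_goals try ring


lemma sq4 (h : Gen (1 : k) (2/3) x y) : SS (pt x) (pt (algebraMap k F (0))) (po F) (pt (algebraMap k F (1))) =
    sy (KC72.ev (List.ofFn (G8 x y)) (pq.getD 4 default)) := by
  have := cz (k := k) (F := F)
  have n1 : x ≠ 0 := uF_ne h 0
  have n2 : x - 1 ≠ 0 := uF_ne h 1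
  have n3 : x - (2/3) ≠ 0 := uF_ne h 2
  have n4 : x - (3/4) ≠ 0 := uF_ne h 3
  show _ = sy (KC72.ev (List.ofFn (G8 x y)) (false, [1, 0, 0, 0, 0, 0, 0, 0, 0]))
  unfold SS
  congr 1
  rw [ev_G8 (k := k)]
  unfold KC72.cr
  simp only [br_pt, br_pto, br_opt, mk0, mk1, mk2, mk3, mk4]
  simp [M8, Fin.prod_univ_succ, uF, zpow_ofNat, map_ofNat]
  all_goals field_simp
  all_goals try ring


lemma sq5 (h : Gen (1 : k) (2/3) x y) : SS (pt x) (pt (algebraMap k F (3/4))) (pt (algebraMap k F (2/3))) (pt (algebraMap k F (1))) =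
    sy (KC72.ev (List.ofFn (G8 x y)) (pq.getD 5 default)) := by
  have := cz (k := k) (F := F)
  have n1 : x ≠ 0 := uF_ne h 0
  have n2 : x - 1 ≠ 0 := uF_ne h 1
  have n3 : x - (2/3) ≠ 0 := uF_ne h 2
  have n4 : x - (3/4) ≠ 0 := uF_ne h 3
  show _ = sy (KC72.ev (List.ofFn (G8 x y)) (false, [0, 0, -1, 1, 0, 0, 0, 2, -1]))
  unfold SS
  congr 1
  rw [ev_G8 (k := k)]
  unfold KC72.cr
  simp only [br_pt, br_pto, br_opt, mk0, mk1, mk2, mk3, mk4]
  simp [M8, Fin.prod_univ_succ, uF, zpow_ofNat, map_ofNat]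
  all_goals field_simp
  all_goals try ring


lemma sq6 (h : Gen (1 : k) (2/3) x y) : SS (pt x) (pt (algebraMap k F (3/4))) (pt (algebraMap k F (1))) (pt (algebraMap k F (0))) =
    sy (KC72.ev (List.ofFn (G8 x y)) (pq.getD 6 default)) := by
  have := cz (k := k) (F := F)
  have n1 : x ≠ 0 := uF_ne h 0
  have n2 : x - 1 ≠ 0 := uF_ne h 1
  have n3 : x - (2/3) ≠ 0 := uF_ne h 2
  have n4 : x - (3/4) ≠ 0 := uF_ne h 3
  show _ = sy (KC72.ev (List.ofFn (G8 x y)) (false, [0, -1, 0, 1, 0, 0, 0, 2, -1]))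
  unfold SS
  congr 1
  rw [ev_G8 (k := k)]
  unfold KC72.cr
  simp only [br_pt, br_pto, br_opt, mk0, mk1, mk2, mk3, mk4]
  simp [M8, Fin.prod_univ_succ, uF, zpow_ofNat, map_ofNat]
  all_goals field_simp
  all_goals try ring


lemma sq7 (h : Gen (1 : k) (2/3) x y) : SS (pt x) (pt (algebraMap k F (3/4))) (pt (algebraMap k F (0))) (po F) =
    sy (KC72.ev (List.ofFn (G8 x y)) (pq.getD 7 default)) := by
  have := cz (k := k) (F := F)
  have n1 : x ≠ 0 := uF_ne h 0
  have n2 : x - 1 ≠ 0 := uF_ne h 1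
  have n3 : x - (2/3) ≠ 0 := uF_ne h 2
  have n4 : x - (3/4) ≠ 0 := uF_ne h 3
  show _ = sy (KC72.ev (List.ofFn (G8 x y)) (false, [-1, 0, 0, 1, 0, 0, 0, 0, 0]))
  unfold SS
  congr 1
  rw [ev_G8 (k := k)]
  unfold KC72.cr
  simp only [br_pt, br_pto, br_opt, mk0, mk1, mk2, mk3, mk4]
  simp [M8, Fin.prod_univ_succ, uF, zpow_ofNat, map_ofNat]
  all_goals field_simp
  all_goals try ring


lemma hR0 (h : Gen (1 : k) (2/3) x y) : algebraMap k F (4/9) * (x - algebraMap k F (0)) *
    (x - algebraMap k F (0)) * (x - algebraMap k F (3/4)) /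
    (x - algebraMap k F (2/3)) ^ 2 = KC72.ev (List.ofFn (G8 x y)) R0 := by
  have := cz (k := k) (F := F)
  have n1 : x ≠ 0 := uF_ne h 0
  have n2 : x - 1 ≠ 0 := uF_ne h 1
  have n3 : x - (2/3) ≠ 0 := uF_ne h 2
  have n4 : x - (3/4) ≠ 0 := uF_ne h 3
  unfold R0
  rw [ev_G8 (k := k)]
  simp only [mk0, mk1, mk2, mk3, mk4]
  simp [M8, Fin.prod_univ_succ, uF, zpow_ofNat, map_ofNat]
  all_goals field_simp
  all_goals try ring

variable (k x y) in
/-- the span of the symbols of the Moebius functions -/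
noncomputable def V : Submodule ℚ (B2 F) := SC k F ⊔ Submodule.span ℚ
  {a | ∃ q < 8, a = sy (KC72.ev (List.ofFn (G8 x y)) (pq.getD q default))}

lemma memV {q : ℕ} (hq : q < 8) :
    sy (KC72.ev (List.ofFn (G8 x y)) (pq.getD q default)) ∈ V k x y :=
  Submodule.mem_sup_right (Submodule.subset_span ⟨q, hq, rfl⟩)

theorem cub0 (h : Gen (1 : k) (2/3) x y) : sy (KC72.ev (List.ofFn (G8 x y)) R0) ∈ V k x y := by
  have := cz (k := k) (F := F)
  have H := sy_cubic' (k := k) (x := x) (u_nc h) (a1 := 0) (a2 := 0) (a3 := 3/4)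
    (b := 2/3) (c1 := 1) (c2 := 1) (c3 := 1) (κ := 4/9) (fun p => by ring)
    (by norm_num) (by norm_num) (by norm_num) (by norm_num) (by norm_num) (by norm_num)
    (by norm_num)
  rw [hR0 h] at H
  have m1 : SS (pt x) (pt (algebraMap k F (0))) (pt (algebraMap k F (2/3))) (pt (algebraMap k F (1))) ∈ V k x y := by
    rw [sq0 h]; exact memV (by norm_num)
  have m2 : SS (pt x) (pt (algebraMap k F (0))) (pt (algebraMap k F (2/3))) (pt (algebraMap k F (1))) ∈ V k x y := by
    rw [sq0 h]; exact memV (by norm_num)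
  have m3 : SS (pt x) (pt (algebraMap k F (3/4))) (po F) (pt (algebraMap k F (1))) ∈ V k x y := by
    rw [sq1 h]; exact memV (by norm_num)
  have m4 : SS (pt x) (pt (algebraMap k F (0))) (pt (algebraMap k F (1))) (pt (algebraMap k F (2/3))) ∈ V k x y := by
    rw [sq2 h]; exact memV (by norm_num)
  have m5 : SS (pt x) (pt (algebraMap k F (3/4))) (pt (algebraMap k F (1))) (pt (algebraMap k F (2/3))) ∈ V k x y := by
    rw [sq3 h]; exact memV (by norm_num)
  have m6 : SS (pt x) (pt (algebraMap k F (0))) (pt (algebraMap k F (1))) (pt (algebraMap k F (2/3))) ∈ V k x y := by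
    rw [sq2 h]; exact memV (by norm_num)
  have m7 : SS (pt x) (pt (algebraMap k F (0))) (po F) (pt (algebraMap k F (1))) ∈ V k x y := by
    rw [sq4 h]; exact memV (by norm_num)
  have m8 : SS (pt x) (pt (algebraMap k F (3/4))) (pt (algebraMap k F (2/3))) (pt (algebraMap k F (1))) ∈ V k x y := by
    rw [sq5 h]; exact memV (by norm_num)
  have m9 : SS (pt x) (pt (algebraMap k F (3/4))) (pt (algebraMap k F (1))) (pt (algebraMap k F (0))) ∈ V k x y := by
    rw [sq6 h]; exact memV (by norm_num)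
  have m10 : SS (pt x) (pt (algebraMap k F (3/4))) (pt (algebraMap k F (0))) (po F) ∈ V k x y := by
    rw [sq7 h]; exact memV (by norm_num)
  have m11 : SS (pt x) (pt (algebraMap k F (3/4))) (po F) (pt (algebraMap k F (1))) ∈ V k x y := by
    rw [sq1 h]; exact memV (by norm_num)
  have H2 := Submodule.add_mem (V k x y) (Submodule.mem_sup_left H)
    (Submodule.add_mem _ (Submodule.add_mem _ (Submodule.add_mem _ (Submodule.add_mem _
    (Submodule.add_mem _ (Submodule.sub_mem _ (Submodule.sub_mem _ (Submodule.sub_mem _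
    (Submodule.add_mem _ (Submodule.add_mem _ m1 m2) m3) m4) m5) m6) m7) m8) m9) m10) m11)
  rwa [sub_add_cancel] at H2

/-- the translates -/
theorem cubj (i : ℕ) : ∀ x y : F, Gen (1 : k) (2/3) x y →
    sy (KC72.ev (List.ofFn (G8 x y)) (shM T8 i R0)) ∈ SC k F ⊔ Submodule.span ℚ
      {a | ∃ q < 8, a = sy (KC72.ev (List.ofFn (G8 x y)) (shM T8 i (pq.getD q default)))} := by
  induction i with
  | zero => intro x y h; exact cub0 h
  | succ i ih =>
    intro x y h
    have hg := G8l_ne h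
    have key := ih (nx x y) (ny x y) (Gen.next' h)
    rw [G8_next h] at key
    simp only [← ev_subst hg] at key
    exact key

variable (k x y) in
/-- the span of the symbols of the classes of degree two and four -/
noncomputable def VA : Submodule ℚ (B2 F) := SC k F ⊔ Submodule.span ℚ
  {a | ∃ p ∈ clsA, a = sy (KC72.ev (List.ofFn (G8 x y)) p.1)}

lemma mem_getD {i : ℕ} (hi : i < 58) : cls.getD i default ∈ clsA := by
  have hl : i < cls.length := by rw [cls_len]; omega
  rw [List.getD_eq_getElem _ _ hl]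
  exact List.mem_take_iff_getElem.mpr ⟨i, by rw [cls_len]; omega, rfl⟩

lemma memA {i : ℕ} (hi : i < 58) :
    sy (KC72.ev (List.ofFn (G8 x y)) (cls.getD i default).1) ∈ VA k x y :=
  Submodule.mem_sup_right (Submodule.subset_span ⟨_, mem_getD hi, rfl⟩)

lemma sy_oo (h : Gen (1 : k) (2/3) x y) {p : ℕ × ℕ} (hp : p.1 < cls.length) :
    sy (KC72.ev (List.ofFn (G8 x y)) (oo cls p)) =
      sy (KC72.ev (List.ofFn (G8 x y)) (cls.getD p.1 default).1) ∨
    sy (KC72.ev (List.ofFn (G8 x y)) (oo cls p)) =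
      - sy (KC72.ev (List.ofFn (G8 x y)) (cls.getD p.1 default).1) := by
  have := cz (k := k) (F := F)
  have hg := G8l_ne h
  have HS := (sols8 h).getD hp
  refine sy_orb ?_ (orb6_orb hg HS p.2)
  intro h2
  rw [h2] at HS
  exact ev_ne hg (cls.getD p.1 default).2 (by linear_combination HS)

/-- **the classes of degree six** -/
theorem cub_mem (h : Gen (1 : k) (2/3) x y) {i : ℕ} (hi : i < 4) :
    sy (KC72.ev (List.ofFn (G8 x y)) (cls.getD (58 + i) default).1) ∈ VA k x y := by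
  have hg := G8l_ne h
  have h1 := (List.all_eq_true.mp chk1) i (List.mem_range.mpr hi)
  rw [Bool.and_eq_true, Nat.blt_eq] at h1
  have h2 := (List.all_eq_true.mp chk2) _ (List.mem_range.mpr h1.2)
  rw [List.all_eq_true] at h2
  have key := cubj (cubT.getD i default).1 x y h
  have hle : SC k F ⊔ Submodule.span ℚ {a | ∃ q < 8, a = sy (KC72.ev (List.ofFn (G8 x y))
      (shM T8 (cubT.getD i default).1 (pq.getD q default)))} ≤ VA k x y := by
    refine sup_le le_sup_left (Submodule.span_le.mpr ?_)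
    rintro a ⟨q, hq, rfl⟩
    have h3 := h2 q (List.mem_range.mpr hq)
    rw [Bool.and_eq_true, Nat.blt_eq] at h3
    show sy _ ∈ VA k x y
    rw [ev_eqM hg h3.2]
    rcases sy_oo h (p := (qT.getD (cubT.getD i default).1 []).getD q default)
      (by rw [cls_len]; omega) with h4 | h4
    · rw [h4]; exact memA h3.1
    · rw [h4]; exact Submodule.neg_mem _ (memA h3.1)
  have k2 := hle key
  rw [ev_eqM hg h1.1] at k2
  rcases sy_oo h (p := (58 + i, (cubT.getD i default).2)) (by rw [cls_len]; show 58 + i < 62; omega)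
    with h4 | h4
  · rw [h4] at k2; exact k2
  · rw [h4] at k2
    have k3 := Submodule.neg_mem _ k2
    rwa [neg_neg] at k3

/-- **the symbols of all solutions** -/
theorem hUA (h : Gen (1 : k) (2/3) x y) {f : F} (hf : U8 k x y f) (hf1 : U8 k x y (1 - f)) :
    sy f ∈ SC k F ⊔ Submodule.span ℚ
      {a | ∃ p ∈ clsA, a = sy (KC72.ev (List.ofFn (G8 x y)) p.1)} := by
  have := cz (k := k) (F := F)
  have hg := G8l_ne h
  rcases unit8' h hf hf1 with ⟨c, rfl⟩ | ⟨p, hp, ho⟩
  · exact Submodule.mem_sup_left (Submodule.subset_span ⟨c, rfl⟩)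
  · have h1 : KC72.ev (List.ofFn (G8 x y)) p.1 ≠ 1 := by
      intro h2
      have HS := sols8 h p hp
      rw [h2] at HS
      exact ev_ne hg p.2 (by linear_combination HS)
    have h2 : sy (KC72.ev (List.ofFn (G8 x y)) p.1) ∈ VA k x y := by
      obtain ⟨c, hc, hcp⟩ := List.getElem_of_mem hp
      have h3 : p = cls.getD c default := by rw [List.getD_eq_getElem _ _ hc, hcp]
      rw [cls_len] at hc
      rw [h3]
      by_cases h5 : c < 58
      · exact memA h5
      · have h6 : c = 58 + (c - 58) := by omega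
        rw [h6]
        exact cub_mem h (by omega)
    rcases sy_orb h1 ho with h4 | h4
    · rw [h4]; exact h2
    · rw [h4]; exact Submodule.neg_mem _ h2


end

end Pool.Agent.K8c
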